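import Pool.Agent.R341.SG.Stm

/-! SG-ST (helper451): tensorization -/

namespace Pool.Agent.R451.SG

open Finset Pool.Agent.R341.SG

noncomputable section

/-- kernel -/
def kk (b : Fin 3) (z y : Bool) : ℝ :=
  if b = 1 then 1 / 2 else if b = 0 then (if y = !z then 1 else 0) else (if y = z then 1 else 0)

/-- one point weight -/
def mB (y : Bool) : ℝ := if y = true then rho else 1 - rho

/-- product weight -/
def muB {n : ℕ} (y : Fin n → Bool) : ℝ := ∏ x, mB (y x)

/-- product kernel -/
def KK {n : ℕ} (b : Fin n → Fin 3) (z y : Fin n → Bool) : ℝ := ∏ x, kk (b x) (z x) (y x)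

/-- average over the live coordinates -/
def Ex {n : ℕ} (b : Fin n → Fin 3) (z : Fin n → Bool) (F : (Fin n → Bool) → ℝ) : ℝ :=
  ∑ y, KK b z y * F y

/-- number of exceptions -/
def cnt {n : ℕ} (z : Fin n → Bool) : ℕ := ∑ x, if z x = true then 1 else 0

lemma sum_cons {n : ℕ} {α : Type} [Fintype α] (f : (Fin (n + 1) → α) → ℝ) :
    ∑ y, f y = ∑ a : α, ∑ y' : Fin n → α, f (Fin.cons a y') := by
  rw [← Fintype.sum_prod_type' (f := fun (a : α) (y' : Fin n → α) =>
    f (Fin.cons (α := fun _ => α) a y'))]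
  exact (Fintype.sum_equiv (Fin.consEquiv (fun _ => α)) _ _ (fun p => rfl)).symm

lemma Ex_cons {n : ℕ} (i : Fin 3) (b : Fin n → Fin 3) (z0 : Bool) (z : Fin n → Bool)
    (F : (Fin (n + 1) → Bool) → ℝ) :
    Ex (Fin.cons i b : Fin (n + 1) → Fin 3) (Fin.cons z0 z : Fin (n + 1) → Bool) F
      = kk i z0 true * Ex b z (fun y => F (Fin.cons true y))
        + kk i z0 false * Ex b z (fun y => F (Fin.cons false y)) := by
  unfold Ex
  rw [sum_cons, Fintype.sum_bool, mul_sum, mul_sum]
  congr 1
  · apply sum_congr rfl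
    intro y _
    unfold KK
    rw [Fin.prod_univ_succ]
    simp only [Fin.cons_zero, Fin.cons_succ]
    ring
  · apply sum_congr rfl
    intro y _
    unfold KK
    rw [Fin.prod_univ_succ]
    simp only [Fin.cons_zero, Fin.cons_succ]
    ring

lemma cnt_cons {n : ℕ} (z0 : Bool) (z : Fin n → Bool) :
    cnt (Fin.cons z0 z : Fin (n + 1) → Bool) = (if z0 = true then 1 else 0) + cnt z := by
  unfold cnt
  rw [Fin.sum_univ_succ]
  simp only [Fin.cons_zero, Fin.cons_succ]

lemma wb_cons {n : ℕ} (i : Fin 3) (b : Fin n → Fin 3) :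
    wb (Fin.cons i b : Fin (n + 1) → Fin 3) = q i * wb b := by
  unfold wb
  rw [Fin.prod_univ_succ]
  simp only [Fin.cons_zero, Fin.cons_succ]

lemma muB_cons {n : ℕ} (i : Bool) (y : Fin n → Bool) :
    muB (Fin.cons i y : Fin (n + 1) → Bool) = mB i * muB y := by
  unfold muB
  rw [Fin.prod_univ_succ]
  simp only [Fin.cons_zero, Fin.cons_succ]

lemma rho_pos : 0 < rho := by
  unfold rho
  have : Real.exp (-1) < 1 := by rw [Real.exp_lt_one_iff]; norm_num
  linarith

lemma rho_lt : 0 < 1 - rho := by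
  unfold rho
  have := Real.exp_pos (-1)
  linarith

lemma mB_pos (y : Bool) : 0 < mB y := by
  unfold mB
  split_ifs
  · exact rho_pos
  · exact rho_lt

lemma muB_pos {n : ℕ} (y : Fin n → Bool) : 0 < muB y := prod_pos fun _ _ => mB_pos _

lemma q_nonneg (i : Fin 3) : 0 ≤ q i := by
  have h1 := Real.exp_one_lt_d9
  have h2 := Real.exp_one_gt_d9
  have h3 : Real.exp (-1) = (Real.exp 1)⁻¹ := Real.exp_neg 1
  have h4 : 0 < Real.exp 1 := Real.exp_pos 1
  have h5 : Real.exp (-1) * Real.exp 1 = 1 := by rw [h3]; field_simp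
  have h6 : 0 < Real.exp (-1) := Real.exp_pos _
  unfold q
  split_ifs
  · exact h6.le
  · nlinarith
  · nlinarith

lemma wb_nonneg {n : ℕ} (b : Fin n → Fin 3) : 0 ≤ wb b := prod_nonneg fun _ _ => q_nonneg _

lemma opt {n : ℕ} {lam : ℝ} (hlam : 1 < lam) {Fa Fb : (Fin n → Bool) → ℝ} {A B : ℝ}
    {Ga Gb : (Fin n → Fin 3) → ℝ} (ha : ∀ b, 0 < Ga b) (hb : ∀ b, 0 < Gb b)
    (ha' : ∀ b, ∃ z, Ga b * lam ^ cnt z ≤ Ex b z Fa) (hb' : ∀ b, ∃ z, Gb b * lam ^ cnt z ≤ Ex b z Fb)
    (hA : ∑ b, wb b / Ga b ≤ 1 / A) (hB : ∑ b, wb b / Gb b ≤ 1 / B) :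
    ∃ H : (Fin n → Fin 3) → ℝ, (∀ b, 0 < H b) ∧
      (∀ b, (∃ z, H b * lam ^ cnt z ≤ Ex b z Fa) ∨ (∃ z, H b * lam ^ (1 + cnt z) ≤ Ex b z Fb)) ∧
      ∑ b, wb b / H b ≤ min (1 / A) (lam / B) := by
  have hl : 0 < lam := by linarith
  by_cases h : 1 / A ≤ lam / B
  · refine ⟨Ga, ha, fun b => Or.inl (ha' b), ?_⟩
    rw [min_eq_left h]
    exact hA
  · refine ⟨fun b => Gb b / lam, fun b => div_pos (hb b) hl, fun b => Or.inr ?_, ?_⟩
    · obtain ⟨z, hz⟩ := hb' b
      refine ⟨z, ?_⟩
      have h1 : Gb b / lam * lam ^ (1 + cnt z) = Gb b * lam ^ cnt z := by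
        rw [pow_add, pow_one]
        field_simp
      rw [h1]
      exact hz
    · rw [min_eq_right (not_le.mp h).le]
      have h1 : ∑ b, wb b / (Gb b / lam) = lam * ∑ b, wb b / Gb b := by
        rw [mul_sum]
        apply sum_congr rfl
        intro b _
        have := (hb b).ne'
        field_simp
      rw [h1]
      calc lam * ∑ b, wb b / Gb b ≤ lam * (1 / B) := mul_le_mul_of_nonneg_left hB hl.le
        _ = lam / B := by ring

lemma claim (h2 : SMINK) (N : ℕ) (hN : 1 ≤ N) (lam : ℝ) (hlam : 1 < lam)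
    (hone : ∀ x y : ℝ, 0 < x → 0 < y →
      q 1 * (2 / (x ^ N + y ^ N)) + q 0 * min (1 / x ^ N) (lam / y ^ N) +
        q 2 * min (1 / y ^ N) (lam / x ^ N) ≤ 1 / (rho * x + (1 - rho) * y) ^ N) :
    ∀ (n : ℕ) (F : (Fin n → Bool) → ℝ), (∀ y, 0 < F y) → ∃ G : (Fin n → Fin 3) → ℝ,
      (∀ b, 0 < G b) ∧ (∀ b, ∃ z, G b * lam ^ cnt z ≤ Ex b z F) ∧
      ∑ b, wb b / G b ≤ 1 / (∑ y, muB y * F y ^ (1 / (N : ℝ))) ^ N := by
  have hN0 : (N : ℝ) ≠ 0 := by
    have : N ≠ 0 := by omega
    exact_mod_cast this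
  have hl : 0 < lam := by linarith
  intro n
  induction n with
  | zero =>
    intro F hF
    obtain ⟨c, hc⟩ : ∃ c, ∀ y, F y = c := ⟨F default, fun y => congrArg F (Subsingleton.elim _ _)⟩
    have hc0 : 0 < c := by rw [← hc default]; exact hF _
    refine ⟨fun _ => c, fun _ => hc0, fun b => ⟨default, ?_⟩, ?_⟩
    · unfold Ex KK cnt
      simp [hc]
    · have h1 : ∀ b : Fin 0 → Fin 3, wb b = 1 := by intro b; unfold wb; simp
      have h3 : ∀ y : Fin 0 → Bool, muB y = 1 := by intro y; unfold muB; simp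
      simp only [h1, h3, hc, one_mul, univ_unique, sum_singleton]
      rw [← Real.rpow_natCast, ← Real.rpow_mul hc0.le, one_div_mul_cancel hN0,
        Real.rpow_one]
  | succ n ih =>
    intro F hF
    set Ft : (Fin n → Bool) → ℝ := fun y => F (Fin.cons true y) with hFt
    set Ff : (Fin n → Bool) → ℝ := fun y => F (Fin.cons false y) with hFf
    set Fa : (Fin n → Bool) → ℝ := fun y => (Ff y + Ft y) / 2 with hFa
    have hFt0 : ∀ y, 0 < Ft y := fun y => hF _
    have hFf0 : ∀ y, 0 < Ff y := fun y => hF _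
    have hFa0 : ∀ y, 0 < Fa y := fun y => by
      have := hFt0 y
      have := hFf0 y
      simp only [hFa]
      linarith
    obtain ⟨Gt, hGt0, hGt1, hGt2⟩ := ih Ft hFt0
    obtain ⟨Gf, hGf0, hGf1, hGf2⟩ := ih Ff hFf0
    obtain ⟨Ga, hGa0, hGa1, hGa2⟩ := ih Fa hFa0
    set x : ℝ := ∑ y, muB y * Ft y ^ (1 / (N : ℝ)) with hx
    set y : ℝ := ∑ y, muB y * Ff y ^ (1 / (N : ℝ)) with hy
    have hx0 : 0 < x := sum_pos (fun y _ => mul_pos (muB_pos y) (Real.rpow_pos_of_pos (hFt0 y) _))
      univ_nonempty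
    have hy0 : 0 < y := sum_pos (fun y _ => mul_pos (muB_pos y) (Real.rpow_pos_of_pos (hFf0 y) _))
      univ_nonempty
    -- live
    have hlive : ∑ b, wb b / Ga b ≤ 2 / (x ^ N + y ^ N) := by
      refine le_trans hGa2 ?_
      have h3 := h2 (Fin n → Bool) muB Ff Ft N hN (fun y => (muB_pos y).le) hFf0 hFt0
      have h4 : 0 < (y ^ N + x ^ N) / 2 := by positivity
      have h5 : (2 : ℝ) / (x ^ N + y ^ N) = 1 / ((y ^ N + x ^ N) / 2) := by
        rw [add_comm (x ^ N)]
        field_simp
      rw [h5]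
      exact one_div_le_one_div_of_le h4 h3
    -- statuses 0 and 2
    obtain ⟨H0, hH00, hH01, hH02⟩ := opt hlam hGt0 hGf0 hGt1 hGf1 hGt2 hGf2
    obtain ⟨H2, hH20, hH21, hH22⟩ := opt hlam hGf0 hGt0 hGf1 hGt1 hGf2 hGt2
    refine ⟨fun b => if b 0 = 1 then Ga (Fin.tail b) else if b 0 = 0 then H0 (Fin.tail b)
      else H2 (Fin.tail b), ?_, ?_, ?_⟩
    · intro b
      dsimp only
      split_ifs
      · exact hGa0 _
      · exact hH00 _
      · exact hH20 _
    · intro b
      obtain ⟨i, b', rfl⟩ : ∃ (i : Fin 3) (b' : Fin n → Fin 3), b = Fin.cons i b' :=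
        ⟨b 0, Fin.tail b, (Fin.cons_self_tail b).symm⟩
      simp only [Fin.cons_zero, Fin.tail_cons]
      by_cases h1 : i = 1
      · subst h1
        rw [if_pos rfl]
        obtain ⟨z, hz⟩ := hGa1 b'
        refine ⟨Fin.cons false z, ?_⟩
        rw [cnt_cons, Ex_cons]
        have e1 : kk 1 false true = 1 / 2 := by unfold kk; rw [if_pos rfl]
        have e2 : kk 1 false false = 1 / 2 := by unfold kk; rw [if_pos rfl]
        rw [e1, e2]
        have e3 : (if (false = true) then 1 else 0) + cnt z = cnt z := by simp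
        rw [e3]
        refine le_trans hz (le_of_eq ?_)
        unfold Ex
        rw [mul_sum, mul_sum, ← sum_add_distrib]
        apply sum_congr rfl
        intro y _
        simp only [hFa, hFt, hFf]
        ring
      · rw [if_neg h1]
        by_cases h0 : i = 0
        · subst h0
          rw [if_pos rfl]
          rcases hH01 b' with ⟨z, hz⟩ | ⟨z, hz⟩
          · refine ⟨Fin.cons false z, ?_⟩
            rw [cnt_cons, Ex_cons]
            have e1 : kk 0 false true = 1 := by unfold kk; simp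
            have e2 : kk 0 false false = 0 := by unfold kk; simp
            have e3 : (if (false = true) then 1 else 0) + cnt z = cnt z := by simp
            rw [e1, e2, e3, one_mul, zero_mul, add_zero]
            exact hz
          · refine ⟨Fin.cons true z, ?_⟩
            rw [cnt_cons, Ex_cons]
            have e1 : kk 0 true true = 0 := by unfold kk; simp
            have e2 : kk 0 true false = 1 := by unfold kk; simp
            rw [e1, e2, if_pos rfl, one_mul, zero_mul, zero_add]
            exact hz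
        · rw [if_neg h0]
          have hi2 : i = 2 := by
            revert h1 h0
            revert i
            decide
          subst hi2
          rcases hH21 b' with ⟨z, hz⟩ | ⟨z, hz⟩
          · refine ⟨Fin.cons false z, ?_⟩
            rw [cnt_cons, Ex_cons]
            have e1 : kk 2 false true = 0 := by unfold kk; simp
            have e2 : kk 2 false false = 1 := by unfold kk; simp
            have e3 : (if (false = true) then 1 else 0) + cnt z = cnt z := by simp
            rw [e1, e2, e3, one_mul, zero_mul, zero_add]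
            exact hz
          · refine ⟨Fin.cons true z, ?_⟩
            rw [cnt_cons, Ex_cons]
            have e1 : kk 2 true true = 1 := by unfold kk; simp
            have e2 : kk 2 true false = 0 := by unfold kk; simp
            rw [e1, e2, if_pos rfl, one_mul, zero_mul, add_zero]
            exact hz
    · have hsumF : ∑ y, muB y * F y ^ (1 / (N : ℝ)) = rho * x + (1 - rho) * y := by
        rw [sum_cons, Fintype.sum_bool, hx, hy, mul_sum, mul_sum]
        congr 1
        · apply sum_congr rfl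
          intro y _
          rw [muB_cons]
          have : mB true = rho := by unfold mB; simp
          rw [this]
          ring
        · apply sum_congr rfl
          intro y _
          rw [muB_cons]
          have : mB false = 1 - rho := by unfold mB; simp
          rw [this]
          ring
      rw [hsumF, sum_cons, Fin.sum_univ_three]
      refine le_trans ?_ (hone x y hx0 hy0)
      have hq : ∀ i, ∀ H : (Fin n → Fin 3) → ℝ, ∀ B : ℝ, ∑ b, wb b / H b ≤ B →
          ∑ b : Fin n → Fin 3, wb (Fin.cons i b : Fin (n + 1) → Fin 3) / H b ≤ q i * B := by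
        intro i H B hB
        have h3 : ∑ b : Fin n → Fin 3, wb (Fin.cons i b : Fin (n + 1) → Fin 3) / H b
            = q i * ∑ b, wb b / H b := by
          rw [mul_sum]
          apply sum_congr rfl
          intro b _
          rw [wb_cons]
          ring
        rw [h3]
        exact mul_le_mul_of_nonneg_left hB (q_nonneg i)
      have t1 := hq 1 Ga _ hlive
      have t0 := hq 0 H0 _ hH02
      have t2 := hq 2 H2 _ hH22
      simp only [Fin.cons_zero, Fin.tail_cons]
      have z0 : ¬ ((0 : Fin 3) = 1) := by decide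
      have z2 : ¬ ((2 : Fin 3) = 1) := by decide
      have z3 : ¬ ((2 : Fin 3) = 0) := by decide
      simp only [if_neg z0, if_neg z2, if_neg z3, if_true]
      linarith

/-- the set of a vector -/
def ts {n : ℕ} (y : Fin n → Bool) : Finset (Fin n) := univ.filter fun x => y x = true

/-- the vector of a set -/
def ind {n : ℕ} (D : Finset (Fin n)) : Fin n → Bool := fun x => decide (x ∈ D)

lemma ts_ind {n : ℕ} (D : Finset (Fin n)) : ts (ind D) = D := by
  unfold ts ind
  ext x
  simp

lemma mu_ind {n : ℕ} (D : Finset (Fin n)) : mu D = muB (ind D) := by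
  unfold mu muB mB
  rw [prod_ite, prod_const, prod_const]
  have h1 : (univ.filter fun x => ind D x = true) = D := ts_ind D
  have h2 : (univ.filter fun x => ¬ ind D x = true).card = n - D.card := by
    have h3 := card_filter_add_card_filter_not (s := (univ : Finset (Fin n)))
      (fun x => ind D x = true)
    rw [h1, card_univ, Fintype.card_fin] at h3
    omega
  rw [h1, h2]

lemma cnt_ts {n : ℕ} (z : Fin n → Bool) : cnt z = (ts z).card := by
  unfold cnt ts
  rw [card_filter]

lemma sum_kk (b : Fin 3) (z : Bool) : ∑ y : Bool, kk b z y = 1 := by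
  rw [Fintype.sum_bool]
  unfold kk
  by_cases h1 : b = 1
  · rw [if_pos h1, if_pos h1]; norm_num
  · rw [if_neg h1, if_neg h1]
    by_cases h0 : b = 0
    · rw [if_pos h0, if_pos h0]
      cases z <;> simp
    · rw [if_neg h0, if_neg h0]
      cases z <;> simp

lemma kk_nonneg (b : Fin 3) (z y : Bool) : 0 ≤ kk b z y := by
  unfold kk
  split_ifs <;> norm_num

lemma KK_nonneg {n : ℕ} (b : Fin n → Fin 3) (z y : Fin n → Bool) : 0 ≤ KK b z y :=
  prod_nonneg fun _ _ => kk_nonneg _ _ _

lemma sum_KK {n : ℕ} (b : Fin n → Fin 3) (z : Fin n → Bool) : ∑ y, KK b z y = 1 := by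
  unfold KK
  have h1 := prod_univ_sum (fun _ : Fin n => (univ : Finset Bool))
    (fun x y0 => kk (b x) (z x) y0)
  rw [Fintype.piFinset_univ] at h1
  rw [← h1]
  exact prod_eq_one fun x _ => sum_kk _ _

lemma KK_val {n : ℕ} (b : Fin n → Fin 3) (z y : Fin n → Bool) (h : KK b z y ≠ 0) :
    KK b z y = (1 / 2) ^ (St b 1).card ∧ ∀ x, kk (b x) (z x) (y x) ≠ 0 := by
  have h1 : ∀ x, kk (b x) (z x) (y x) ≠ 0 := fun x => (prod_ne_zero_iff.mp h) x (mem_univ x)
  refine ⟨?_, h1⟩
  have h2 : ∀ x, kk (b x) (z x) (y x) = if b x = 1 then 1 / 2 else 1 := by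
    intro x
    have h3 := h1 x
    unfold kk at h3 ⊢
    split_ifs at h3 ⊢ <;> first | rfl | exact absurd rfl h3
  unfold KK
  rw [prod_congr rfl fun x _ => h2 x, prod_ite, prod_const, prod_const_one, mul_one]
  rfl

lemma set_eq {n : ℕ} (b : Fin n → Fin 3) (z y : Fin n → Bool)
    (h : ∀ x, kk (b x) (z x) (y x) ≠ 0) : bs b (ts z) ∪ (ts y ∩ St b 1) = ts y := by
  ext x
  have h1 := h x
  unfold bs ts St
  simp only [mem_union, mem_sdiff, mem_filter, mem_univ, true_and, mem_inter]
  unfold kk at h1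
  have h3 : ∀ i : Fin 3, i = 0 ∨ i = 1 ∨ i = 2 := by decide
  rcases h3 (b x) with h4 | h4 | h4
  · rw [h4] at h1 ⊢
    have z0 : ¬ ((0 : Fin 3) = 1) := by decide
    have z2 : ¬ ((0 : Fin 3) = 2) := by decide
    rw [if_neg z0, if_pos rfl] at h1
    have h5 : y x = !z x := by
      by_contra h6
      rw [if_neg h6] at h1
      exact h1 rfl
    rw [h5]
    cases z x <;> simp
  · rw [h4]
    simp
  · rw [h4] at h1 ⊢
    have z0 : ¬ ((2 : Fin 3) = 1) := by decide
    have z2 : ¬ ((2 : Fin 3) = 0) := by decide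
    rw [if_neg z0, if_neg z2] at h1
    have h5 : y x = z x := by
      by_contra h6
      rw [if_neg h6] at h1
      exact h1 rfl
    rw [h5]
    cases z x <;> simp

lemma Ex_le {n : ℕ} (A : Finset (Finset (Fin n))) (b : Fin n → Fin 3) (z : Fin n → Bool) :
    Ex b z (fun y => if ts y ∈ A then 1 else 0) * 2 ^ (St b 1).card ≤
      (((powerset (St b 1)).filter fun D => bs b (ts z) ∪ D ∈ A).card : ℝ) := by
  have h1 : Ex b z (fun y => if ts y ∈ A then 1 else 0) * 2 ^ (St b 1).card
      = ((univ.filter fun y : Fin n → Bool => KK b z y ≠ 0 ∧ ts y ∈ A).card : ℝ) := by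
    unfold Ex
    rw [sum_mul, card_filter]
    push_cast
    apply sum_congr rfl
    intro y _
    by_cases h : KK b z y = 0
    · rw [h]; simp
    · rw [(KK_val b z y h).1]
      by_cases h2 : ts y ∈ A
      · rw [if_pos h2, if_pos ⟨by positivity, h2⟩, mul_one, ← mul_pow]
        norm_num
      · rw [if_neg h2, if_neg (fun h3 => h2 h3.2)]
        ring
  rw [h1]
  have h2 : (univ.filter fun y : Fin n → Bool => KK b z y ≠ 0 ∧ ts y ∈ A).card ≤
      ((powerset (St b 1)).filter fun D => bs b (ts z) ∪ D ∈ A).card := by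
    apply card_le_card_of_injOn (fun y => ts y ∩ St b 1)
    · intro y hy
      have hy' := mem_filter.mp (mem_coe.mp hy)
      have h3 := set_eq b z y (KK_val b z y hy'.2.1).2
      rw [mem_coe, mem_filter, mem_powerset]
      refine ⟨inter_subset_right, ?_⟩
      show bs b (ts z) ∪ (ts y ∩ St b 1) ∈ A
      rw [h3]
      exact hy'.2.2
    · intro y hy y' hy' he
      have hyy := mem_filter.mp (mem_coe.mp hy)
      have hyy' := mem_filter.mp (mem_coe.mp hy')
      have h3 := set_eq b z y (KK_val b z y hyy.2.1).2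
      have h4 := set_eq b z y' (KK_val b z y' hyy'.2.1).2
      have h5 : ts y ∩ St b 1 = ts y' ∩ St b 1 := he
      rw [h5, h4] at h3
      funext x
      have h6 : x ∈ ts y' ↔ x ∈ ts y := by rw [h3]
      unfold ts at h6
      simp only [mem_filter, mem_univ, true_and] at h6
      exact (Bool.eq_iff_iff.mpr h6).symm
  exact_mod_cast h2

theorem st (h1 : SONE) (h2 : SMINK) : SST := by
  obtain ⟨N, lam, hN, hlam, hone⟩ := h1
  have hl : 0 < lam := by linarith
  have hN0 : (N : ℝ) ≠ 0 := by
    have : N ≠ 0 := by omega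
    exact_mod_cast this
  intro η δ hη hδ
  set g0 : ℝ := δ * η ^ N with hg0
  have hg0pos : 0 < g0 := by positivity
  obtain ⟨t, ht⟩ := pow_unbounded_of_one_lt (2 / g0) hlam
  refine ⟨g0 / 2, t, by positivity, ?_⟩
  intro n A hA
  set ζ : ℝ := min 1 (g0 / 2) with hζ
  have hζ0 : 0 < ζ := lt_min one_pos (by positivity)
  have hζ1 : ζ ≤ 1 := min_le_left _ _
  have hζ2 : ζ ≤ g0 / 2 := min_le_right _ _
  set F : (Fin n → Bool) → ℝ := fun y => (if ts y ∈ A then 1 else 0) + ζ with hF
  have hF0 : ∀ y, 0 < F y := by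
    intro y
    simp only [hF]
    split_ifs <;> linarith
  obtain ⟨G, hG0, hG1, hG2⟩ := claim h2 N hN lam hlam hone n F hF0
  -- the mean
  have hmean : η ≤ ∑ y, muB y * F y ^ (1 / (N : ℝ)) := by
    refine le_trans hA ?_
    have h3 : ∑ D ∈ A, mu D ≤ ∑ D ∈ A, muB (ind D) * F (ind D) ^ (1 / (N : ℝ)) := by
      apply sum_le_sum
      intro D hD
      rw [mu_ind]
      have h4 : 1 ≤ F (ind D) := by
        simp only [hF]
        rw [ts_ind, if_pos hD]
        linarith
      have h5 : 1 ≤ F (ind D) ^ (1 / (N : ℝ)) := Real.one_le_rpow h4 (by positivity)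
      have := (muB_pos (ind D)).le
      nlinarith
    refine le_trans h3 ?_
    have h6 : ∑ D ∈ A, muB (ind D) * F (ind D) ^ (1 / (N : ℝ))
        = ∑ y ∈ A.image ind, muB y * F y ^ (1 / (N : ℝ)) := by
      rw [sum_image]
      intro D _ D' _ he
      have he' : ind D = ind D' := he
      rw [← ts_ind D, ← ts_ind D', he']
    rw [h6]
    apply sum_le_sum_of_subset_of_nonneg (subset_univ _)
    intro y _ _
    exact (mul_pos (muB_pos y) (Real.rpow_pos_of_pos (hF0 y) _)).le
  have hsum : ∑ b, wb b / G b ≤ 1 / η ^ N := by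
    refine le_trans hG2 ?_
    exact one_div_le_one_div_of_le (by positivity) (pow_le_pow_left₀ hη.le hmean N)
  -- bad b have small G
  have hbad : ∀ b : Fin n → Fin 3, (∀ Z : Finset (Fin n), Z.card ≤ t →
      (((powerset (St b 1)).filter fun D => bs b Z ∪ D ∈ A).card : ℝ) <
        g0 / 2 * 2 ^ (St b 1).card) → G b < g0 := by
    intro b hb
    by_contra hc
    push Not at hc
    obtain ⟨z, hz⟩ := hG1 b
    have h3 : Ex b z F = Ex b z (fun y => if ts y ∈ A then 1 else 0) + ζ := by
      unfold Ex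
      simp only [hF, mul_add, sum_add_distrib]
      congr 1
      rw [← sum_mul, sum_KK, one_mul]
    have h4 : Ex b z (fun y => if ts y ∈ A then 1 else 0) ≤ 1 := by
      refine le_trans ?_ (sum_KK b z).le
      unfold Ex
      apply sum_le_sum
      intro y _
      have := KK_nonneg b z y
      dsimp only
      split_ifs <;> nlinarith
    have hlam1 : 1 ≤ lam ^ cnt z := one_le_pow₀ hlam.le
    have h5 : g0 * lam ^ cnt z ≤ Ex b z F := le_trans (mul_le_mul_of_nonneg_right hc (by positivity)) hz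
    have h6 : lam ^ cnt z ≤ 2 / g0 := by
      rw [le_div_iff₀ hg0pos]
      linarith
    have h7 : cnt z ≤ t := by
      by_contra h8
      push Not at h8
      have h9 : lam ^ t ≤ lam ^ cnt z := pow_le_pow_right₀ hlam.le h8.le
      linarith
    have h8 := hb (ts z) (by rw [← cnt_ts]; exact h7)
    have h9 := Ex_le A b z
    have h10 : g0 / 2 ≤ Ex b z (fun y => if ts y ∈ A then 1 else 0) := by
      have h11 : g0 ≤ g0 * lam ^ cnt z := by nlinarith
      linarith
    have h12 : g0 / 2 * 2 ^ (St b 1).card ≤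
        Ex b z (fun y => if ts y ∈ A then 1 else 0) * 2 ^ (St b 1).card :=
      mul_le_mul_of_nonneg_right h10 (by positivity)
    linarith
  calc ∑ b ∈ (univ : Finset (Fin n → Fin 3)).filter (fun b => ∀ Z : Finset (Fin n), Z.card ≤ t →
        (((powerset (St b 1)).filter fun D => bs b Z ∪ D ∈ A).card : ℝ) <
          g0 / 2 * 2 ^ (St b 1).card), wb b
      ≤ ∑ b ∈ (univ : Finset (Fin n → Fin 3)).filter (fun b => ∀ Z : Finset (Fin n), Z.card ≤ t →
        (((powerset (St b 1)).filter fun D => bs b Z ∪ D ∈ A).card : ℝ) <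
          g0 / 2 * 2 ^ (St b 1).card), g0 * (wb b / G b) := by
        apply sum_le_sum
        intro b hb
        have h3 := hbad b (mem_filter.mp hb).2
        have h4 := hG0 b
        have h5 := wb_nonneg b
        rw [← mul_div_assoc, le_div_iff₀ h4]
        nlinarith
    _ ≤ ∑ b, g0 * (wb b / G b) := by
        apply sum_le_sum_of_subset_of_nonneg (subset_univ _)
        intro b _ _
        have h4 := hG0 b
        have h5 := wb_nonneg b
        positivity
    _ = g0 * ∑ b, wb b / G b := by rw [mul_sum]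
    _ ≤ g0 * (1 / η ^ N) := mul_le_mul_of_nonneg_left hsum hg0pos.le
    _ = δ := by
        rw [hg0]
        have : η ^ N ≠ 0 := by positivity
        field_simp

end

end Pool.Agent.R451.SG
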